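import Mathlib

/-!
Infinitely many admissible coefficients which are not rational powers.
-/

set_option autoImplicit false

namespace Pool.Agent.H24.PZ

/-- the exponent divides the valuations of a rational power -/
lemma dvd_val (p n : ℕ) [Fact p.Prime] (x q : ℚ) (hx : x ≠ 0) (h : q ^ n = x) :
    (n : ℤ) ∣ padicValRat p x := by
  rcases eq_or_ne n 0 with hn | hn
  · subst hn
    rw [pow_zero] at h
    rw [← h]
    simp
  · have hq : q ≠ 0 := by
      rintro rfl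
      rw [zero_pow hn] at h
      exact hx h.symm
    rw [← h, padicValRat.pow]
    exact dvd_mul_right _ _

lemma val_one (p N : ℕ) [hp : Fact p.Prime] (h1 : p ∣ N) (h2 : ¬ p * p ∣ N) :
    padicValNat p N = 1 := by
  obtain ⟨c, hc⟩ := h1
  have hc1 : ¬ p ∣ c := by
    intro h
    exact h2 (hc ▸ mul_dvd_mul_left p h)
  have hc0 : c ≠ 0 := by
    rintro rfl
    exact hc1 (dvd_zero p)
  rw [hc, padicValNat.mul hp.out.ne_zero hc0, padicValNat_self,
    padicValNat.eq_zero_of_not_dvd hc1]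

lemma not_pow (p N n : ℕ) (hp : p.Prime) (hn : 2 ≤ n) (hd1 : p ∣ N) (hd2 : ¬ p * p ∣ N) (q : ℚ) :
    q ^ n ≠ (N : ℚ) := by
  have := Fact.mk hp
  intro hq
  have hN : (N : ℚ) ≠ 0 := by
    intro h0
    have h0' : N = 0 := by exact_mod_cast h0
    exact hd2 (h0' ▸ dvd_zero _)
  have h1 := dvd_val p n _ q hN hq
  rw [padicValRat.of_nat, val_one p N hd1 hd2] at h1
  have h2 : n ∣ 1 := by exact_mod_cast h1
  have h3 := Nat.le_of_dvd one_pos h2
  omega

lemma not_pow_two (m : ℕ) (hm : 0 < m) (q : ℚ) : q ^ (8 * m) ≠ 2 ^ (4 * m) := by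
  have : Fact (Nat.Prime 2) := ⟨Nat.prime_two⟩
  intro hq
  have h1 := dvd_val 2 (8 * m) _ q (by positivity) hq
  have h2 : padicValRat 2 ((2 : ℚ) ^ (4 * m)) = ((4 * m : ℕ) : ℤ) := by
    rw [padicValRat.pow]
    have h3 : padicValRat 2 (2 : ℚ) = 1 := by
      have := padicValRat.self (p := 2) (by norm_num)
      exact_mod_cast this
    rw [h3, mul_one]
  rw [h2] at h1
  have h3 : 8 * m ∣ 4 * m := by exact_mod_cast h1
  have h4 := Nat.le_of_dvd (by omega) h3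
  omega

theorem inf_b (m : ℕ) (hm : 0 < m) : ∀ B : ℕ, ∃ b : ℕ, B < b ∧
    (2 : ℤ) ^ (padicValNat 2 (8 * m) + 2) ∣ 2 ^ (4 * m) + (b : ℤ) - 1 ∧
    ¬ ∃ q : ℚ, q ^ (8 * m) = 2 ^ (4 * m) ∨ q ^ (8 * m) = b ∨ q ^ (8 * m) = 2 ^ (4 * m) + b := by
  intro B
  obtain ⟨E, hE⟩ : ∃ E, E = padicValNat 2 (8 * m) + 2 := ⟨_, rfl⟩
  rw [← hE]
  have co1 : Nat.Coprime (2 ^ E) 9 := Nat.Coprime.pow_left _ (by decide)
  have co2 : Nat.Coprime (2 ^ E * 9) 25 :=
    Nat.Coprime.mul_left (Nat.Coprime.pow_left _ (by decide)) (by decide)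
  have hpos : 0 < 2 ^ E := by positivity
  obtain ⟨k1, k1a, k1b⟩ := Nat.chineseRemainder co1 ((2 ^ E - 1) * 2 ^ (4 * m) + 1) 3
  obtain ⟨k2, k2a, k2b⟩ := Nat.chineseRemainder co2 k1 (24 * 2 ^ (4 * m) + 5)
  obtain ⟨b, hb⟩ : ∃ b, b = k2 + 2 ^ E * 9 * 25 * (B + 1) := ⟨_, rfl⟩
  have b1 : b ≡ (2 ^ E - 1) * 2 ^ (4 * m) + 1 [MOD 2 ^ E] := by
    have h1 : b ≡ k2 [MOD 2 ^ E] := by
      rw [hb]
      have : k2 + 2 ^ E * 9 * 25 * (B + 1) = k2 + 2 ^ E * (9 * 25 * (B + 1)) := by ring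
      rw [this]
      exact Nat.add_modulus_mul_modEq_iff.2 (Nat.ModEq.refl _) |>.trans (Nat.ModEq.refl _)
    exact h1.trans ((k2a.of_mul_right 9).trans k1a)
  have b2 : b ≡ 3 [MOD 9] := by
    have h1 : b ≡ k2 [MOD 9] := by
      rw [hb]
      have : k2 + 2 ^ E * 9 * 25 * (B + 1) = k2 + 9 * (2 ^ E * 25 * (B + 1)) := by ring
      rw [this]
      exact Nat.add_modulus_mul_modEq_iff.2 (Nat.ModEq.refl _) |>.trans (Nat.ModEq.refl _)
    exact h1.trans ((k2a.of_mul_left (2 ^ E)).trans k1b)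
  have b3 : b ≡ 24 * 2 ^ (4 * m) + 5 [MOD 25] := by
    have h1 : b ≡ k2 [MOD 25] := by
      rw [hb]
      have : k2 + 2 ^ E * 9 * 25 * (B + 1) = k2 + 25 * (2 ^ E * 9 * (B + 1)) := by ring
      rw [this]
      exact Nat.add_modulus_mul_modEq_iff.2 (Nat.ModEq.refl _) |>.trans (Nat.ModEq.refl _)
    exact h1.trans k2b
  refine ⟨b, ?_, ?_, ?_⟩
  · rw [hb]
    nlinarith
  · have h1 := (Nat.modEq_iff_dvd.1 b1)
    have h2 : (2 : ℤ) ^ (4 * m) + (b : ℤ) - 1 =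
        (2 : ℤ) ^ E * 2 ^ (4 * m) - ((((2 ^ E - 1) * 2 ^ (4 * m) + 1 : ℕ) : ℤ) - b) := by
      push_cast [Nat.cast_sub (show 1 ≤ 2 ^ E from hpos)]
      ring
    rw [h2]
    exact dvd_sub (dvd_mul_right _ _) (by exact_mod_cast h1)
  · rintro ⟨q, hq | hq | hq⟩
    · exact not_pow_two m hm q hq
    · have b4 : b % 9 = 3 := b2
      exact not_pow 3 b (8 * m) Nat.prime_three (by omega) (by omega) (by omega) q hq
    · have h5 : (2 ^ (4 * m) + b) % 25 = 5 := by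
        have h1 : 2 ^ (4 * m) + b ≡ 2 ^ (4 * m) + (24 * 2 ^ (4 * m) + 5) [MOD 25] :=
          Nat.ModEq.add_left _ b3
        have h2 : 2 ^ (4 * m) + (24 * 2 ^ (4 * m) + 5) = 5 + 25 * 2 ^ (4 * m) := by ring
        rw [h2] at h1
        have h3 : (5 + 25 * 2 ^ (4 * m)) % 25 = 5 := by omega
        have h4 : (2 ^ (4 * m) + b) % 25 = (5 + 25 * 2 ^ (4 * m)) % 25 := h1
        rw [h4, h3]
      apply not_pow 5 (2 ^ (4 * m) + b) (8 * m) Nat.prime_five (by omega) (by omega) (by omega) q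
      rw [hq]
      push_cast
      ring

theorem ex17 : ¬ ∃ q : ℚ, q ^ 8 = 16 ∨ q ^ 8 = 17 ∨ q ^ 8 = 33 := by
  rintro ⟨q, hq | hq | hq⟩
  · exact not_pow_two 1 one_pos q (by rw [mul_one, hq]; norm_num)
  · exact not_pow 17 17 8 (by norm_num) (by norm_num) (by norm_num) (by norm_num) q (by exact_mod_cast hq)
  · exact not_pow 3 33 8 (by norm_num) (by norm_num) (by norm_num) (by norm_num) q (by exact_mod_cast hq)

theorem ex33 : ¬ ∃ q : ℚ, q ^ 8 = 16 ∨ q ^ 8 = 33 ∨ q ^ 8 = 49 := by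
  rintro ⟨q, hq | hq | hq⟩
  · exact not_pow_two 1 one_pos q (by rw [mul_one, hq]; norm_num)
  · exact not_pow 3 33 8 (by norm_num) (by norm_num) (by norm_num) (by norm_num) q (by exact_mod_cast hq)
  · haveI : Fact (Nat.Prime 7) := ⟨by norm_num⟩
    have h1 := dvd_val 7 8 49 q (by norm_num) hq
    have h2 : padicValRat 7 (49 : ℚ) = 2 := by
      have h3 : (49 : ℚ) = (7 : ℚ) ^ 2 := by norm_num
      have h4 : padicValRat 7 (7 : ℚ) = 1 := by
        have := padicValRat.self (p := 7) (by norm_num)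
        exact_mod_cast this
      rw [h3, padicValRat.pow, h4]
      norm_num
    rw [h2] at h1
    have h5 := Int.le_of_dvd (by norm_num) h1
    norm_num at h5

end Pool.Agent.H24.PZ
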